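import Pool.Agent.H82.LB.Targets

/-!
MP_ee74d2_an, SUMB: from one ball to all of space.
-/

set_option autoImplicit false

namespace Pool.Agent.H89.LB

open Pool.Agent.H82.LB Pool.Agent.H83.G MeasureTheory Set
open scoped ENNReal NNReal RealInnerProductSpace

lemma Rg_mono' {κ κ' c : ℝ} (h0 : 0 ≤ κ) (h : κ ≤ κ') (hc : 0 ≤ c) {ζ : Z 2}
    (hζ : ζ ∈ Rg 2 κ c) : ζ ∈ Rg 2 κ' c := by
  obtain ⟨h1, h2, h3, h4⟩ := hζ
  have h5 : 0 ≤ ζ.1 := by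
    by_contra hcon
    push Not at hcon
    have : (1 + κ) * ζ.1 < 0 := mul_neg_of_pos_of_neg (by linarith) hcon
    linarith [norm_nonneg ζ.2.1]
  refine ⟨by linarith, by linarith, h3.trans ?_, h4.trans ?_⟩
  · exact mul_le_mul_of_nonneg_right (by linarith) h5
  · exact mul_le_mul_of_nonneg_right (by linarith) hc

lemma BdB_mono {L : ℕ} {κ κ' R Λ K ρ M : ℝ} {n : ℕ} {g : ℝ} (h0 : 0 ≤ κ) (h : κ ≤ κ')
    (hρ : 0 ≤ ρ) (hR : 0 ≤ R) (hB : BdB L κ' R Λ K ρ M n g) : BdB L κ R Λ K ρ M n g := by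
  intro ι I c A H G X hA hH h1 h2 h3 hG hX hXB
  refine hB ι I c A H G X hA hH h1 h2 h3 (fun k hk => ?_) hX hXB
  obtain ⟨⟨a1, a2, a3⟩, a4⟩ := hG k hk
  refine ⟨⟨a1, fun ζ hζ => Rg_mono' h0 h (inv_nonneg.2 hR) (a2 ζ hζ), a3⟩,
    fun ζ hζ => (a4 ζ hζ).trans ?_⟩
  exact mul_le_mul_of_nonneg_right (by linarith) hρ

lemma sum_ErI {β : E 2 → ℂ} {δ CE κ R A : ℝ} {L : ℕ} {ι : Type} (I : Finset ι)
    (G : ι → Z 2 → ℂ) (hCE : 0 < CE) (hκ : 0 ≤ κ) (hκ1 : κ ≤ 1 / 2) (hR1 : 1 ≤ R)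
    (hens : ∀ (R : ℝ) (G : Z 2 → ℂ), 1 ≤ R → TC G → (∀ ζ, G ζ ≠ 0 → ζ ∈ Rg 2 (1 / 2) R⁻¹) →
      ∑' j : Zi 2, Er 5 β R δ G ((R / (((2 : ℕ) : ℝ) + 1)) • zc j) ≤
        ENNReal.ofReal (CE * R ^ (lo 2 * δ) * ∫ ζ, ‖G ζ‖ ^ 2))
    (hcls : ∀ k ∈ I, Cls L κ R A (G k)) (J : Finset (Zi 2)) :
    ∑ l ∈ J, (∑ k ∈ I, Er 5 β R δ (G k) ((R / (((2 : ℕ) : ℝ) + 1)) • zc l)).toReal ≤
      CE * R ^ (lo 2 * δ) * ∑ k ∈ I, ∫ ζ, ‖G k ζ‖ ^ 2 := by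
  have hR0 : 0 < R := by linarith
  have hI0 : ∀ k, 0 ≤ ∫ ζ, ‖G k ζ‖ ^ 2 := fun k => integral_nonneg fun ζ => by positivity
  have hQ0 : ∀ k, 0 ≤ CE * R ^ (lo 2 * δ) * ∫ ζ, ‖G k ζ‖ ^ 2 := fun k =>
    mul_nonneg (by positivity) (hI0 k)
  have h1 : ∀ k ∈ I, ∑' j : Zi 2, Er 5 β R δ (G k) ((R / (((2 : ℕ) : ℝ) + 1)) • zc j) ≤
      ENNReal.ofReal (CE * R ^ (lo 2 * δ) * ∫ ζ, ‖G k ζ‖ ^ 2) := by
    intro k hk
    have hc := hcls k hk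
    exact hens R (G k) hR1 hc.1 fun ζ hζ => Rg_mono' hκ hκ1 (inv_nonneg.2 hR0.le) (hc.2.1 ζ hζ)
  have h2 : ∑ l ∈ J, ∑ k ∈ I, Er 5 β R δ (G k) ((R / (((2 : ℕ) : ℝ) + 1)) • zc l) ≤
      ENNReal.ofReal (CE * R ^ (lo 2 * δ) * ∑ k ∈ I, ∫ ζ, ‖G k ζ‖ ^ 2) := by
    rw [Finset.sum_comm, Finset.mul_sum, ENNReal.ofReal_sum_of_nonneg fun k _ => hQ0 k]
    exact Finset.sum_le_sum fun k hk => (ENNReal.sum_le_tsum J).trans (h1 k hk)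
  have h3 : ∀ l ∈ J, ∑ k ∈ I, Er 5 β R δ (G k) ((R / (((2 : ℕ) : ℝ) + 1)) • zc l) ≠ ⊤ := by
    intro l hl
    refine ne_top_of_le_ne_top ENNReal.ofReal_ne_top (le_trans ?_ h2)
    exact Finset.single_le_sum (f := fun l => ∑ k ∈ I, Er 5 β R δ (G k)
      ((R / (((2 : ℕ) : ℝ) + 1)) • zc l)) (fun _ _ => by positivity) hl
  rw [← ENNReal.toReal_sum h3]
  refine ENNReal.toReal_le_of_le_ofReal ?_ h2
  exact mul_nonneg (by positivity) (Finset.sum_nonneg fun k _ => hI0 k)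

theorem pf_SUMB (hBALL : T_BALL) (hBASH : T_BASH) (hENS : T_ENS) (hPUX : T_PUX)
    (hWT3 : T_WT3) : T_SUMB := by
  classical
  obtain ⟨C₁, hC₁, hball⟩ := hBALL
  refine ⟨C₁, hC₁, ?_⟩
  intro ε₀ c₀ δ₀ L₀ L δ ε₁ hε₀ hε₀1 hc₀ hc₀1 hδ₀1 hB2 hL₀ hL hδ hδδ₀ hε₁
  obtain ⟨β, hβ⟩ := hPUX 2
  obtain ⟨CB, hCB, hball⟩ := hball ε₀ c₀ δ₀ L₀ L β δ ε₁ hε₀ hε₀1 hc₀ hc₀1 hδ₀1 hB2 hL₀ hL hβ
    hδ hδδ₀ hε₁
  obtain ⟨CH, hCH, hbash⟩ := hBASH L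
  obtain ⟨CE, hCE, hens⟩ := hENS 2 5 β δ hβ hδ.le (by norm_num)
  have hwt5 : ∀ x : Z 2, ∃ l : Zi 2, ‖x - zc l‖ ≤ ((2 : ℕ) : ℝ) + 1 :=
    (hWT3 2 5 le_rfl).choose_spec.2.2.2.2
  have hCB0 : 0 < CB := by linarith
  have hCBE : 0 < CB * CE := by positivity
  refine ⟨CB + CH + CB * CE, by linarith, ?_⟩
  intro κ R Λ K ρ M g n n₁ hκ hκ1 hCR hK hρ hM hg hK4 hC1 hM8 hM8' hsR hn₁ hn hBdB
  intro ι I c A H G X hA hH hΛ hIM hc hArr hSep hX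
  have hCle : CB ≤ CB + CH + CB * CE := by linarith
  have hR1 : 1 ≤ R := by linarith
  have hR0 : 0 < R := by linarith
  have hκ2 : κ ≤ 1 / 2 := by linarith
  have hI0 : ∀ k, 0 ≤ ∫ ζ, ‖G k ζ‖ ^ 2 := fun k => integral_nonneg fun ζ => by positivity
  have hS0 : 0 ≤ ∑ k ∈ I, ∫ ζ, ‖G k ζ‖ ^ 2 := Finset.sum_nonneg fun k _ => hI0 k
  have hlo : lo 2 ≤ lb 2 := by
    unfold lo lb
    norm_num
  have hlb : 0 < lb 2 := by
    unfold lb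
    norm_num
  set S1 : ℝ := R ^ (ε₁ + 2 * lb 2 * δ) * g + R ^ (2 * lb 2 * δ - c₀ / 2) with hS1
  set S₀ : ℝ := R ^ (ε₁ + lb 2 * δ) * g + R ^ (lb 2 * δ - c₀ / 2) with hS₀
  have hS1p : 0 ≤ S1 := by positivity
  have hS₀p : 0 ≤ S₀ := by positivity
  rcases le_total H A with hHA | hHA
  · have h1 := hbash κ R K ρ A H n ι I c G X hκ hκ2 hR1 hA hH hHA hArr hSep hX
    refine h1.trans ?_
    have h2 : 1 ≤ S1 * R ^ (1 / 3 : ℝ) := by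
      have h3 : R ^ (2 * lb 2 * δ - c₀ / 2) ≤ S1 := by
        have : 0 ≤ R ^ (ε₁ + 2 * lb 2 * δ) * g := by positivity
        linarith
      have h4 : 1 ≤ R ^ (2 * lb 2 * δ - c₀ / 2) * R ^ (1 / 3 : ℝ) := by
        rw [← Real.rpow_add hR0]
        refine Real.one_le_rpow hR1 ?_
        have : 0 ≤ 2 * lb 2 * δ := by positivity
        linarith
      exact h4.trans (mul_le_mul_of_nonneg_right h3 (by positivity))
    have h5 : CH * 1 ≤ (CB + CH + CB * CE) * (S1 * R ^ (1 / 3 : ℝ)) :=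
      mul_le_mul (by linarith) h2 zero_le_one (by linarith)
    calc CH * A ^ (4 / 3 : ℝ) * ∑ k ∈ I, ∫ ζ, ‖G k ζ‖ ^ 2
        = (CH * 1) * (A ^ (4 / 3 : ℝ) * ∑ k ∈ I, ∫ ζ, ‖G k ζ‖ ^ 2) := by ring
      _ ≤ ((CB + CH + CB * CE) * (S1 * R ^ (1 / 3 : ℝ))) *
          (A ^ (4 / 3 : ℝ) * ∑ k ∈ I, ∫ ζ, ‖G k ζ‖ ^ 2) :=
          mul_le_mul_of_nonneg_right h5 (by positivity)
      _ = _ := by ring
  · -- the balls
    have hJ : ∀ z : Z 2, ∃ l : Zi 2, ‖z - (R / (((2 : ℕ) : ℝ) + 1)) • zc l‖ ≤ R := by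
      intro z
      have hm1 : (0 : ℝ) < ((2 : ℕ) : ℝ) + 1 := by positivity
      obtain ⟨l, hl⟩ := hwt5 ((R / (((2 : ℕ) : ℝ) + 1))⁻¹ • z)
      refine ⟨l, ?_⟩
      have h1 : z - (R / (((2 : ℕ) : ℝ) + 1)) • zc l =
          (R / (((2 : ℕ) : ℝ) + 1)) • ((R / (((2 : ℕ) : ℝ) + 1))⁻¹ • z - zc l) := by
        rw [smul_sub, smul_smul, mul_inv_cancel₀ (by positivity), one_smul]
      rw [h1, norm_smul, Real.norm_of_nonneg (by positivity)]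
      calc R / (((2 : ℕ) : ℝ) + 1) * ‖(R / (((2 : ℕ) : ℝ) + 1))⁻¹ • z - zc l‖
          ≤ R / (((2 : ℕ) : ℝ) + 1) * (((2 : ℕ) : ℝ) + 1) :=
            mul_le_mul_of_nonneg_left hl (by positivity)
        _ = R := by field_simp
    choose jj hjj using hJ
    have hBdB' : BdB L (κ + CB * R ^ (-δ)) (R ^ (1 - ε₀)) Λ K ρ M n₁ g := by
      refine BdB_mono (by positivity) ?_ hρ.le (by positivity) hBdB
      have : CB * R ^ (-δ) ≤ (CB + CH + CB * CE) * R ^ (-δ) :=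
        mul_le_mul_of_nonneg_right hCle (by positivity)
      linarith
    have hK0 : 0 ≤ K ^ 4 := by positivity
    have hM0 : 0 ≤ M ^ 8 := by positivity
    have hone : ∀ l : Zi 2, ((X.filter fun z => jj z = l).card : ℝ) * H ^ (10 / 3 : ℝ) ≤
        CB * S₀ * A ^ (4 / 3 : ℝ) * R ^ (1 / 3 : ℝ) *
          (∑ k ∈ I, Er 5 β R δ (G k) ((R / (((2 : ℕ) : ℝ) + 1)) • zc l)).toReal := by
      intro l
      refine hball κ R Λ K ρ M g A H n n₁ ι I c G ((R / (((2 : ℕ) : ℝ) + 1)) • zc l)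
        (X.filter fun z => jj z = l) hκ hκ1 (hCle.trans hCR) hK hρ hM hg hA hHA ?_ hC1 ?_ ?_ ?_
        hn₁ ?_ hBdB' hΛ hIM hc hArr ?_ ?_ ?_
      · exact (mul_le_mul_of_nonneg_right hCle hK0).trans hK4
      · exact (mul_le_mul_of_nonneg_right hCle hM0).trans hM8
      · exact (mul_le_mul_of_nonneg_right hCle hM0).trans hM8'
      · refine (mul_le_mul_of_nonneg_right hCle ?_).trans hsR
        unfold sR
        positivity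
      · refine le_trans ?_ hn
        exact mul_le_mul_of_nonneg_right
          (mul_le_mul_of_nonneg_right hCle (by positivity)) (by positivity)
      · intro z hz z' hz' hne
        exact hSep z (Finset.mem_filter.1 hz).1 z' (Finset.mem_filter.1 hz').1 hne
      · intro z hz
        have h1 := hjj z
        rw [(Finset.mem_filter.1 hz).2] at h1
        exact h1
      · intro z hz
        exact hX z (Finset.mem_filter.1 hz).1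
    have hcard : (X.card : ℝ) = ∑ l ∈ X.image jj, ((X.filter fun z => jj z = l).card : ℝ) := by
      rw [Finset.card_eq_sum_card_image jj X]
      push_cast
      rfl
    have hsum := sum_ErI I G hCE hκ hκ2 hR1 hens (fun k hk => (hArr k hk).1) (X.image jj)
    have hexp : R ^ (lo 2 * δ) * S₀ ≤ S1 := by
      rw [hS₀, hS1, mul_add, ← mul_assoc, ← Real.rpow_add hR0, ← Real.rpow_add hR0]
      have h1 : lo 2 * δ ≤ lb 2 * δ := mul_le_mul_of_nonneg_right hlo hδ.le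
      refine add_le_add (mul_le_mul_of_nonneg_right ?_ hg) ?_
      · exact Real.rpow_le_rpow_of_exponent_le hR1 (by linarith)
      · exact Real.rpow_le_rpow_of_exponent_le hR1 (by linarith)
    calc (X.card : ℝ) * H ^ (10 / 3 : ℝ)
        = ∑ l ∈ X.image jj, ((X.filter fun z => jj z = l).card : ℝ) * H ^ (10 / 3 : ℝ) := by
          rw [hcard, Finset.sum_mul]
      _ ≤ ∑ l ∈ X.image jj, CB * S₀ * A ^ (4 / 3 : ℝ) * R ^ (1 / 3 : ℝ) *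
          (∑ k ∈ I, Er 5 β R δ (G k) ((R / (((2 : ℕ) : ℝ) + 1)) • zc l)).toReal :=
          Finset.sum_le_sum fun l _ => hone l
      _ = CB * S₀ * A ^ (4 / 3 : ℝ) * R ^ (1 / 3 : ℝ) * ∑ l ∈ X.image jj,
          (∑ k ∈ I, Er 5 β R δ (G k) ((R / (((2 : ℕ) : ℝ) + 1)) • zc l)).toReal := by
          rw [Finset.mul_sum]
      _ ≤ CB * S₀ * A ^ (4 / 3 : ℝ) * R ^ (1 / 3 : ℝ) *
          (CE * R ^ (lo 2 * δ) * ∑ k ∈ I, ∫ ζ, ‖G k ζ‖ ^ 2) :=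
          mul_le_mul_of_nonneg_left hsum (by positivity)
      _ = (CB * CE) * (R ^ (lo 2 * δ) * S₀) *
          (A ^ (4 / 3 : ℝ) * R ^ (1 / 3 : ℝ) * ∑ k ∈ I, ∫ ζ, ‖G k ζ‖ ^ 2) := by ring
      _ ≤ (CB + CH + CB * CE) * S1 *
          (A ^ (4 / 3 : ℝ) * R ^ (1 / 3 : ℝ) * ∑ k ∈ I, ∫ ζ, ‖G k ζ‖ ^ 2) := by
          refine mul_le_mul_of_nonneg_right ?_ (by positivity)
          exact mul_le_mul (by linarith) hexp (by positivity) (by linarith)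
      _ = _ := by ring

end Pool.Agent.H89.LB
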